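import Pool.Agent.H10.LieLang

open FirstOrder FirstOrder.Language

namespace Pool.Agent.Results.MP_8011ed_lc.Perfect
open Pool.Agent.H10 Pool.Agent.H10.LieLang

theorem result (K : Type) [Field K] (n r : ℕ) :
    @Isotyp.Homog (lang K false) (Nil K r n) (str K false (Nil K r n)) ∧
    ∀ (B : Type) [LieRing B] [LieAlgebra K B], LieModule.lowerCentralSeries K B B n = ⊥ →
      @Isotyp.Isotypic (lang K false) (Nil K r n) B (str K false (Nil K r n)) (str K false B) →
      Nonempty (@FirstOrder.Language.Equiv (lang K false) (Nil K r n) B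
        (str K false (Nil K r n)) (str K false B)) := by
  letI := str K false (Nil K r n)
  have h1 : Isotyp.Homog (lang K false) (Nil K r n) := Isotyp.homog_of fun m a b h => by
    obtain ⟨σ, h2⟩ := nil_main false r n m a b h
    exact ⟨toEquiv false σ, funext h2⟩
  refine ⟨h1, fun B _ _ _ h => ?_⟩
  letI := str K false B
  haveI : ∀ n, IsEmpty ((lang K false).Relations n) := fun _ => (inferInstance : IsEmpty Empty)
  refine Isotyp.iso_of_isotypic (fun i : Fin r => mkH _ (FreeLieAlgebra.of K i))
    (fun a => ?_) h1 h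
  obtain ⟨f, ⟨t, ht⟩, hf⟩ := LieHom.exists_term (ld false) (nil_gens r n) a
  exact ⟨t, (ht _).trans (hf LieHom.id)⟩

end Pool.Agent.Results.MP_8011ed_lc.Perfect
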